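import Pool.Agent.H52.CT6

set_option autoImplicit false

namespace Pool.Agent.Results.MP_74d590_lc.Undec

open Pool.Agent.H52.CT

theorem result (n : ℕ) (hn : 2 ≤ n) :
    (¬ ∃ f : List (List (V n)) → Bool, Computable f ∧
      ∀ L, Valid L → (f L = true ↔ ContTiles L)) ∧
    ¬ ∃ f : List (List (V n)) →. Bool, Partrec f ∧
      ∀ L, Valid L → Tiles L → ∃ b ∈ f L, (b = true ↔ ContTiles L) := by
  have key : ¬ ∃ f : List (List (V n)) →. Bool, Partrec f ∧
      ∀ L, Valid L → Tiles L → ∃ b ∈ f L, (b = true ↔ ContTiles L) := by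
    rintro ⟨f, hf, h⟩
    obtain ⟨p, F, hp, hF, H⟩ := main n hn
    choose b hb hb' using fun m => h (F m) (H m).1 (H m).2.1
    have hc : Computable b := (hf.comp hF).of_eq fun m => Part.eq_some_iff.2 (hb m)
    exact hp (ComputablePred.computable_iff.2
      ⟨b, hc, funext fun m => propext ((hb' m).trans (H m).2.2).symm⟩)
  exact ⟨fun ⟨f, hf, h⟩ => key ⟨f, hf, fun L h1 _ => ⟨f L, by simp, h L h1⟩⟩, key⟩

end Pool.Agent.Results.MP_74d590_lc.Undec
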